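import Pool.Agent.R34.DP.Stm

/-!
# DP-PI: from the line to `ℝⁿ`
-/

open MeasureTheory ProbabilityTheory Set Filter
open scoped NNReal ENNReal Topology

namespace R34.DP

/-- Transport of a good operator along an additive, isometric, order preserving, measure preserving
equivalence. -/
theorem transport {X Y : Type} [NormedAddCommGroup X] [PartialOrder X] [MeasurableSpace X]
    [NormedAddCommGroup Y] [PartialOrder Y] [MeasurableSpace Y] (μ : Measure X) (ν : Measure Y)
    (e : X ≃ᵐ Y) (hadd : ∀ a b : X, e (a + b) = e a + e b)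
    (hle : ∀ a b : X, e a ≤ e b ↔ a ≤ b) (hl : LipschitzWith 1 e) (hl' : LipschitzWith 1 e.symm)
    (hμ : MeasurePreserving e μ ν) (S : (Y → ℝ) → Y → ℝ) (C : ℝ≥0) (hS : GoodOp ν S C) :
    GoodOp μ (fun F x => S (fun y => F (e.symm y)) (e x)) C := by
  have h0 : e 0 = 0 := by
    have := hadd 0 0
    rw [add_zero] at this
    exact left_eq_add.mp this
  have hadd' : ∀ a b : Y, e.symm (a + b) = e.symm a + e.symm b := by
    intro a b
    apply e.injective
    rw [hadd, e.apply_symm_apply, e.apply_symm_apply, e.apply_symm_apply]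
  have hle' : ∀ a b : Y, e.symm a ≤ e.symm b ↔ a ≤ b := by
    intro a b
    rw [← hle, e.apply_symm_apply, e.apply_symm_apply]
  have h0' : e.symm 0 = 0 := by
    apply e.injective
    rw [e.apply_symm_apply, h0]
  have hpos : ∀ a : X, 0 ≤ a → 0 ≤ e a := by
    intro a ha
    rw [← h0]
    exact (hle _ _).mpr ha
  have hpos' : ∀ a : Y, 0 ≤ a → 0 ≤ e.symm a := by
    intro a ha
    rw [← h0']
    exact (hle' _ _).mpr ha
  have hlip : ∀ (K : ℝ≥0) (F : X → ℝ), LipschitzWith K F →
      LipschitzWith K (fun y => F (e.symm y)) := by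
    intro K F hF
    have := hF.comp hl'
    rwa [mul_one] at this
  have hadm : ∀ F : X → ℝ, Adm F → Adm (fun y => F (e.symm y)) := by
    rintro F ⟨⟨K, hK⟩, ⟨B, hB⟩⟩
    exact ⟨⟨K, hlip K F hK⟩, ⟨B, fun x => hB _⟩⟩
  constructor
  · intro K F hF hK
    have h1 := (hS.lip K _ (hadm F hF) (hlip K F hK)).comp hl
    rw [mul_one] at h1
    exact h1
  · intro B F hF hB x
    exact hS.bdd B _ (hadm F hF) (fun y => hB _) (e x)
  · intro c F hF
    funext x
    have h1 := hS.const c _ (hadm F hF)
    exact congrFun h1 (e x)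
  · intro F hF
    have h1 := hS.int _ (hadm F hF)
    have h2 : ∫ x, S (fun y => F (e.symm y)) (e x) ∂μ = ∫ y, S (fun y => F (e.symm y)) y ∂ν :=
      hμ.integral_comp e.measurableEmbedding (fun y => S (fun y => F (e.symm y)) y)
    have h3 : ∫ x, (fun y => F (e.symm y)) (e x) ∂μ = ∫ y, F (e.symm y) ∂ν :=
      hμ.integral_comp e.measurableEmbedding (fun y => F (e.symm y))
    rw [h2, h1, ← h3]
    congr 1
    funext x
    show F (e.symm (e x)) = F x
    rw [e.symm_apply_apply]
  · intro F hF a b hab
    exact hS.mono_out _ (hadm F hF) ((hle _ _).mpr hab)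
  · intro F hF hm
    funext x
    have h1 := hS.fix _ (hadm F hF) (fun a b hab => hm ((hle' _ _).mpr hab))
    show S (fun y => F (e.symm y)) (e x) = F x
    rw [h1]
    show F (e.symm (e x)) = F x
    rw [e.symm_apply_apply]
  · intro a ha F G hF hG hFG x
    show S (fun y => G (e.symm y)) (e x) ≤ S (fun y => F (e.symm y)) (e (x + a))
    rw [hadd]
    refine hS.lower (e a) (hpos a ha) _ _ (hadm F hF) (hadm G hG) (fun y => ?_) (e x)
    show G (e.symm y) ≤ F (e.symm (y + e a))
    rw [hadd', e.symm_apply_apply]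
    exact hFG _
  · intro a ha F G hF hG hFG x c hc hca
    show S (fun y => F (e.symm y)) (e (x + c)) ≤ S (fun y => G (e.symm y)) (e x)
    rw [hadd]
    refine hS.upper (e a) (hpos a ha) _ _ (hadm F hF) (hadm G hG) (fun y d hd hda => ?_) (e x)
      (e c) (hpos c hc) ((hle _ _).mpr hca)
    show F (e.symm (y + d)) ≤ G (e.symm y)
    rw [hadd']
    refine hFG _ _ (hpos' d hd) ?_
    rw [← e.symm_apply_apply a]
    exact (hle' _ _).mpr hda

theorem t_PI : S_PROD → S_PI := by
  rintro hP ⟨T, C, hT⟩ n
  induction n with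
  | zero =>
    refine ⟨fun F => F, 1, ?_⟩
    constructor
    · intro K F hF hK
      rw [one_mul]
      exact hK
    · intro B F hF hB x
      exact hB x
    · intro c F hF
      rfl
    · intro F hF
      rfl
    · intro F hF a b hab
      rw [Subsingleton.elim a b]
    · intro F hF hm
      rfl
    · intro a ha F G hF hG h x
      exact h x
    · intro a ha F G hF hG h x c hc hca
      exact h x c hc hca
  | succ n ih =>
    obtain ⟨S, D, hS⟩ := ih
    obtain ⟨C', hC'⟩ := hP ℝ (Fin n → ℝ) g1 (gam n) T S C D hT hS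
    refine ⟨_, C', transport (gam (n + 1)) (g1.prod (gam n))
      (MeasurableEquiv.piFinSuccAbove (fun _ : Fin (n + 1) => ℝ) 0) ?_ ?_ ?_ ?_ ?_
      (prodOp T S) C' hC'⟩
    · intro a b
      rfl
    · intro a b
      constructor
      · intro h i
        refine Fin.cases ?_ (fun j => ?_) i
        · exact h.1
        · exact h.2 j
      · intro h
        exact ⟨h 0, fun j => h _⟩
    · refine LipschitzWith.of_dist_le_mul (fun x y => ?_)
      rw [NNReal.coe_one, one_mul, Prod.dist_eq]
      refine max_le ?_ ?_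
      · exact dist_le_pi_dist x y 0
      · rw [dist_pi_le_iff dist_nonneg]
        intro j
        exact dist_le_pi_dist x y (Fin.succAbove 0 j)
    · refine LipschitzWith.of_dist_le_mul (fun x y => ?_)
      rw [NNReal.coe_one, one_mul, dist_pi_le_iff dist_nonneg, Prod.dist_eq]
      intro i
      refine Fin.cases ?_ (fun j => ?_) i
      · exact le_max_left _ _
      · exact (dist_le_pi_dist x.2 y.2 j).trans (le_max_right _ _)
    · exact measurePreserving_piFinSuccAbove (fun _ : Fin (n + 1) => g1) 0

end R34.DP
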